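import Pool.Agent.H347Z.MSMain

set_option autoImplicit false

namespace Pool.Agent.Results.MP_682a55_lc.AUndecidable

open Pool.Agent.H347Z.MS

universe u

/-- For every infinite group `H`, no algorithm (computable function, possibly undefined on inputs
that are not codes of sentences) halts on the code of every `MS₀` sentence and reports whether the
sentence holds in all rank-3 `H`-gain-graphic matroids. -/
theorem result (H : Type u) [Group H] [Infinite H] :
    ¬ ∃ f : ℕ →. Bool, Partrec f ∧ ∀ φ : Formula, φ.IsSentence →
      ∃ b ∈ f φ.code, (b = true ↔ φ ∈ theory H) :=
  main H

end Pool.Agent.Results.MP_682a55_lc.AUndecidable
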